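import Pool.Agent.H80R3.Mob.Frames8
import Pool.Agent.Results.MP_794fdb_gt.OrientableSurfaces

/-!
Totally skew embeddings of surfaces and of their quotients.

Upper bound: orientable surfaces that embed in `{t² = F(x, y)} ⊂ ℝ³` have totally skew embeddings
into `ℝ⁷`. Lower bound: a surface containing a Moebius band has none into `ℝ⁶`. For the lower bound,
let `F : ℝ² → ℝ⁶` be the embedding of the band, invariant under `(θ, t) ↦ (θ + 1, -t)`. The vectors
`DF_p e₀ ± DF_q e₀`, `DF_p e₁ ± DF_q e₁`, `F(p) - F(q)` for `p, q = (θ, 0) ± (cos πs, sin πs) / 8` give a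
frame field over a Klein bottle, up to signs; with three more constant vectors it is a family of
eight independent vectors in `ℝ⁹`. Lifting to the Clifford algebra (real `16 × 16` matrices), where the
commutant of eight anticommuting elements is the scalars, the signs have the lifts `Q₁, Q₂` with
`Q₁Q₂ = -Q₂Q₁`, and this is incompatible with the relation of the fundamental group.
-/

namespace Pool.Agent.Results.MP_3c016c_gt.DimensionTwo

open scoped Manifold ContDiff
open Set Topology Module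
open Pool.Agent.Results.MP_794fdb_gt.OrientableSurfaces

noncomputable section

section defs

variable {E H M E' H' M' V : Type*} [NormedAddCommGroup E] [NormedSpace ℝ E] [TopologicalSpace H]
  (I : ModelWithCorners ℝ E H) [TopologicalSpace M] [ChartedSpace H M]
  [NormedAddCommGroup E'] [NormedSpace ℝ E'] [TopologicalSpace H']
  (I' : ModelWithCorners ℝ E' H') [TopologicalSpace M'] [ChartedSpace H' M']
  [NormedAddCommGroup V] [NormedSpace ℝ V]

/-- A `C^∞` map between manifolds with injective differential at every point. -/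
structure IsSmoothImmersion (j : M → M') : Prop where
  smooth : ContMDiff I I' ∞ j
  immersion : ∀ x, Function.Injective (mfderiv I I' j x)

/-- `φ` is a totally skew immersion: a `C^∞` map with injective differential at every point such
that the affine tangent spaces at `x` and `y` are skew whenever `φ(x) ≠ φ(y)`. -/
structure IsTotallySkewImmersion (φ : M → V) : Prop extends IsSmoothImmersion I 𝓘(ℝ, V) φ where
  skew : ∀ x y, φ x ≠ φ y → Skew (affineTangent I φ x) (affineTangent I φ y)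

/-- `p` and `q` are in one orbit of the glide reflection `(θ, t) ↦ (θ + 1, -t)` of the plane. The
quotient of the plane by this relation is the open Moebius band. -/
def GlideRel (p q : Eu 2) : Prop :=
  ∃ k : ℤ, q 0 = p 0 + k ∧ q 1 = (-1 : ℝ) ^ k * p 1

/-- The quotient `M/r` contains a Moebius band, written on `M`: there is a smooth immersion `j` of
the plane into `M` such that `j(p)` and `j(q)` are related exactly when `p` and `q` are in one orbit
of the glide reflection. For `r` the equality this says that `M` contains a Moebius band. -/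
def ContainsMoebius (r : M → M → Prop) : Prop :=
  ∃ j : Eu 2 → M, IsSmoothImmersion (𝓡 2) I j ∧ ∀ p q, r (j p) (j q) ↔ GlideRel p q

/-- The quotient `M/r` has a totally skew embedding into `ℝᴺ`, written on `M`: there is a totally
skew immersion of `M` whose fibres are the classes of `r`. -/
def QuotientHasTotallySkewEmbedding (r : M → M → Prop) (N : ℕ) : Prop :=
  ∃ φ : M → Eu N, IsTotallySkewImmersion I φ ∧ ∀ x y, φ x = φ y ↔ r x y

/-- `x` and `y` are in one orbit of `Γ`. -/
def SameOrbit (Γ : Type*) [Group Γ] [MulAction Γ M] (x y : M) : Prop :=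
  ∃ γ : Γ, γ • x = y

/-- `M` has a smooth embedding into `ℝ³` with image in a set `{t² = F(x, y)}`. -/
def EmbedsInDouble (M : Type*) [TopologicalSpace M] [ChartedSpace H M] : Prop :=
  ∃ ι : M → Eu 3, IsSmoothEmbedding I ι ∧ InDouble ι

end defs

/-- The sphere `S²` has a totally skew embedding into `ℝᴺ`. -/
def SphereHasTotallySkewEmbedding (N : ℕ) : Prop :=
  HasTotallySkewEmbedding (𝓡 2) (Metric.sphere (0 : Eu 3) 1) N

/-- Two points of `S²` are equal or antipodal. -/
def EqOrAntipodal (x y : Metric.sphere (0 : Eu 3) 1) : Prop := x = y ∨ x = -y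

/-- The projective plane has a totally skew embedding into `ℝᴺ`, written on `S²`: there is a totally
skew immersion of `S²` whose fibres are the pairs of antipodal points. -/
def ProjectivePlaneHasTotallySkewEmbedding (N : ℕ) : Prop :=
  QuotientHasTotallySkewEmbedding (𝓡 2) EqOrAntipodal N

section mfld

variable {E H M : Type*} [NormedAddCommGroup E] [NormedSpace ℝ E] [TopologicalSpace H]
  {I : ModelWithCorners ℝ E H} [TopologicalSpace M] [ChartedSpace H M]

lemma tanMap_smul {N : ℕ} (φ : M → Eu N) (x : M) (c : ℝ) (v : TangentSpace I x) :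
    tanMap φ x (c • v) = c • tanMap φ x v :=
  map_smul (mfderiv I 𝓘(ℝ, Eu N) φ x) c v

lemma tanMap_mem {N : ℕ} (φ : M → Eu N) (x : M) (v : TangentSpace I x) :
    tanMap φ x v ∈ tangentImage I φ x := ⟨v, rfl⟩

lemma of_skew {N : ℕ} (φ : M → Eu N) (x y : M)
    (hs : Skew (affineTangent I φ x) (affineTangent I φ y))
    (hx : ∀ v : TangentSpace I x, tanMap φ x v = 0 → v = 0)
    (hy : ∀ v : TangentSpace I y, tanMap φ y v = 0 → v = 0)
    (α : ℝ) (v : TangentSpace I x) (w : TangentSpace I y)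
    (hr : α • (φ x - φ y) + (tanMap φ x v - tanMap φ y w) = 0) : α = 0 ∧ v = 0 ∧ w = 0 := by
  have hα : α = 0 := by
    by_contra hα
    have h1 := hs.1
    rw [Set.disjoint_left] at h1
    refine h1 (a := φ x + tanMap φ x (α⁻¹ • v)) ?_ ?_
    · rw [SetLike.mem_coe, affineTangent, AffineSubspace.mem_mk']
      have : (φ x + tanMap φ x (α⁻¹ • v)) -ᵥ φ x = tanMap φ x (α⁻¹ • v) := by simp
      rw [this]
      exact tanMap_mem φ x _
    · rw [SetLike.mem_coe, affineTangent, AffineSubspace.mem_mk']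
      have : (φ x + tanMap φ x (α⁻¹ • v)) -ᵥ φ y = tanMap φ y (α⁻¹ • w) := by
        rw [tanMap_smul, tanMap_smul, vsub_eq_sub, ← sub_eq_zero]
        have h2 : α⁻¹ • (α • (φ x - φ y) + (tanMap φ x v - tanMap φ y w)) = 0 := by
          rw [hr, smul_zero]
        rw [smul_add, smul_smul, inv_mul_cancel₀ hα, one_smul, smul_sub] at h2
        rw [← h2]
        abel
      rw [this]
      exact tanMap_mem φ y _
  subst hα
  rw [zero_smul, zero_add, sub_eq_zero] at hr
  have h2 := hs.2
  rw [affineTangent, affineTangent, AffineSubspace.direction_mk', AffineSubspace.direction_mk',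
    Submodule.disjoint_def] at h2
  have h3 : tanMap φ x v = 0 := h2 _ (tanMap_mem φ x v) (by rw [hr]; exact tanMap_mem φ y w)
  exact ⟨rfl, hx v h3, hy w (by rw [← hr, h3])⟩

lemma glide_gl2 (p : Eu 2) : GlideRel p (Pool.Agent.H80R3.Mob.gl2 p) := by
  refine ⟨1, ?_, ?_⟩
  · rw [Pool.Agent.H80R3.Mob.gl2_apply]; simp
  · rw [Pool.Agent.H80R3.Mob.gl2_apply]; simp

lemma not_glide_of_dist {p q : Eu 2} (h : dist p q = 1 / 4) : ¬ GlideRel p q := by
  rintro ⟨k, hk0, hk1⟩
  rw [EuclideanSpace.dist_eq, Fin.sum_univ_two, Real.dist_eq, Real.dist_eq, sq_abs, sq_abs] at h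
  have h2 : (p 0 - q 0) ^ 2 + (p 1 - q 1) ^ 2 = 1 / 16 := by
    have h3 := congrArg (fun x => x ^ 2) h
    simp only at h3
    rw [Real.sq_sqrt (by positivity)] at h3
    rw [h3]; norm_num
  rw [hk0] at h2
  have h3 : (k : ℝ) ^ 2 ≤ 1 / 16 := by nlinarith [sq_nonneg (p 1 - q 1)]
  have hk : k = 0 := by
    by_contra hk
    have h4 : (1 : ℤ) ≤ k ^ 2 := by
      have := sq_pos_of_ne_zero hk
      omega
    have h5 : (1 : ℝ) ≤ (k : ℝ) ^ 2 := by exact_mod_cast h4
    linarith
  subst hk
  rw [zpow_zero, one_mul] at hk1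
  rw [hk1] at h2
  norm_num at h2

/-- The lower bound: if the composition of the totally skew immersion `φ` with the immersion `j` of
the plane has the orbits of the glide reflection as fibres, then `N ≥ 7`. -/
theorem seven_le {N : ℕ} {φ : M → Eu N} (hφ : IsTotallySkewImmersion I φ) {j : Eu 2 → M}
    (hj' : IsSmoothImmersion (𝓡 2) I j)
    (hfib : ∀ p q, φ (j p) = φ (j q) ↔ GlideRel p q) : 7 ≤ N := by
  obtain ⟨hj, hji⟩ := hj'
  by_contra hN
  have hN6 : N ≤ 6 := by omega
  have hFd : ContDiff ℝ ∞ (fun p => φ (j p)) := (hφ.smooth.comp hj).contDiff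
  have hder : ∀ p (a : Eu 2), fderiv ℝ (fun p => φ (j p)) p a =
      tanMap (I := I) φ (j p) (mfderiv (𝓡 2) I j p a) := by
    intro p a
    have h1 : HasMFDerivAt (𝓡 2) I j p (mfderiv (𝓡 2) I j p) :=
      (hj.mdifferentiable (by simp) p).hasMFDerivAt
    have h2 : HasMFDerivAt I 𝓘(ℝ, Eu N) φ (j p) (mfderiv I 𝓘(ℝ, Eu N) φ (j p)) :=
      (hφ.smooth.mdifferentiable (by simp) (j p)).hasMFDerivAt
    have h3 : mfderiv (𝓡 2) 𝓘(ℝ, Eu N) (fun p => φ (j p)) p = _ := (h2.comp p h1).mfderiv
    rw [← mfderiv_eq_fderiv, h3]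
    rfl
  refine Pool.Agent.H80R3.Mob.no_TS8 hN6 (fun p => φ (j p)) (hFd.of_le (by exact_mod_cast le_top))
    (fun p => ((hfib p _).mpr (glide_gl2 p)).symm) ?_
  intro p q hpq a b t hr
  have hne : φ (j p) ≠ φ (j q) := fun h => not_glide_of_dist hpq ((hfib p q).mp h)
  rw [hder, hder] at hr
  have hi : ∀ x (v : TangentSpace I x), tanMap φ x v = 0 → v = 0 := fun x v hv =>
    (injective_iff_map_eq_zero _).mp (hφ.immersion x) v hv
  have := of_skew φ (j p) (j q) (hφ.skew _ _ hne) (hi _) (hi _) t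
    (mfderiv (𝓡 2) I j p a) (mfderiv (𝓡 2) I j q b) (by
      rw [← hr]; abel)
  exact ⟨this.1, (injective_iff_map_eq_zero _).mp (hji p) a this.2.1,
    (injective_iff_map_eq_zero _).mp (hji q) b this.2.2⟩

/-- Zero padding. -/
def padN (m N : ℕ) : Eu m →L[ℝ] Eu N := LinearMap.toContinuousLinearMap
  { toFun := fun p => WithLp.toLp 2 (fun k : Fin N => if h : (k : ℕ) < m then p ⟨k, h⟩ else 0)
    map_add' := by
      intro p q; ext k
      simp only [PiLp.add_apply]
      split <;> simp
    map_smul' := by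
      intro c p; ext k
      simp only [PiLp.smul_apply, RingHom.id_apply]
      split <;> simp }

lemma padN_apply (m N : ℕ) (p : Eu m) (k : Fin N) :
    padN m N p k = if h : (k : ℕ) < m then p ⟨k, h⟩ else 0 := rfl

lemma padN_inj {m N : ℕ} (h : m ≤ N) : Function.Injective (padN m N) := by
  rw [injective_iff_map_eq_zero]
  intro p hp
  ext k
  have h1 := congrArg (fun v : Eu N => v ⟨k, by omega⟩) hp
  simp only [padN_apply] at h1
  simpa using h1

/-- Totally skew embeddings may be padded by zeros. -/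
theorem mono {m N : ℕ} (hmN : m ≤ N) (h : HasTotallySkewEmbedding I M m) :
    HasTotallySkewEmbedding I M N := by
  obtain ⟨φ, hφ⟩ := h
  have hT := padN_inj hmN
  have hmd : ∀ x, HasMFDerivAt I 𝓘(ℝ, Eu m) φ x (mfderiv I 𝓘(ℝ, Eu m) φ x) := fun x =>
    (hφ.smooth.mdifferentiable (by simp) x).hasMFDerivAt
  have htan : ∀ x (v : TangentSpace I x), tanMap (fun x => padN m N (φ x)) x v =
      padN m N (tanMap φ x v) := by
    intro x v
    have h1 := ((padN m N).hasFDerivAt (x := φ x)).hasMFDerivAt.comp x (hmd x)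
    unfold tanMap
    have h2 : mfderiv I 𝓘(ℝ, Eu N) (fun x => padN m N (φ x)) x = _ := h1.mfderiv
    rw [h2]
    rfl
  have hi : ∀ x (v : TangentSpace I x), tanMap φ x v = 0 → v = 0 := fun x v hv =>
    (injective_iff_map_eq_zero _).mp (hφ.immersion x) v hv
  refine ⟨fun x => padN m N (φ x), ⟨?_, ?_, ?_⟩, ?_⟩
  · exact (padN m N).contDiff.contMDiff.comp hφ.smooth
  · intro x
    rw [injective_iff_map_eq_zero]
    intro v hv
    have hv' : tanMap (fun x => padN m N (φ x)) x v = 0 := hv
    rw [htan] at hv'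
    exact hi x v (hT (by rw [hv', map_zero]))
  · have : IsClosedEmbedding (padN m N) :=
      LinearMap.isClosedEmbedding_of_injective (f := (padN m N).toLinearMap)
        (LinearMap.ker_eq_bot.mpr hT)
    exact this.isEmbedding.comp hφ.embedding
  · intro x y hxy
    have hne : φ x ≠ φ y := fun he => hxy (by simp [he])
    apply skew_of
    intro α v w hr
    rw [htan, htan] at hr
    have hr' : padN m N (α • (φ x - φ y) + (tanMap φ x v - tanMap φ y w)) = 0 := by
      rw [map_add, map_smul, map_sub, map_sub]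
      exact hr
    exact of_skew φ x y (hφ.skew x y hne) (hi x) (hi y) α v w (hT (by rw [hr', map_zero]))

end mfld

/-! ### The Moebius band in the projective plane -/

/-- The vector `(cos πθ, sin πθ, t)`. -/
def vec (p : Eu 2) : Eu 3 := !₂[Real.cos (Real.pi * p 0), Real.sin (Real.pi * p 0), p 1]

/-- The factor `(1 + t²)^{-1/2}`. -/
def fac (p : Eu 2) : ℝ := (Real.sqrt (1 + p 1 ^ 2))⁻¹

lemma fac_pos (p : Eu 2) : 0 < fac p := by
  unfold fac
  have : 0 < 1 + p 1 ^ 2 := by positivity
  positivity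

lemma fac_sq (p : Eu 2) : fac p ^ 2 * (1 + p 1 ^ 2) = 1 := by
  unfold fac
  have : 0 < 1 + p 1 ^ 2 := by positivity
  rw [inv_pow, Real.sq_sqrt this.le, inv_mul_cancel₀ this.ne']

lemma coord_contDiff (i : Fin 2) : ContDiff ℝ ∞ (fun u : Eu 2 => u i) :=
  (EuclideanSpace.proj i : Eu 2 →L[ℝ] ℝ).contDiff

lemma fac_contDiff : ContDiff ℝ ∞ fac := by
  unfold fac
  have h1 := coord_contDiff 1
  refine ContDiff.inv (ContDiff.sqrt (by fun_prop) ?_) ?_
  · intro p
    have : 0 < 1 + p 1 ^ 2 := by positivity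
    exact this.ne'
  · intro p
    have : 0 < 1 + p 1 ^ 2 := by positivity
    positivity

lemma vec_contDiff : ContDiff ℝ ∞ vec := by
  unfold vec
  have h0 := coord_contDiff 0
  have h1 := coord_contDiff 1
  rw [contDiff_euclidean]
  intro i
  fin_cases i
  · exact Real.contDiff_cos.comp (contDiff_const.mul h0)
  · exact Real.contDiff_sin.comp (contDiff_const.mul h0)
  · exact h1

/-- The parametrization of the unit sphere, as a map to `ℝ³`. -/
def sig0 (p : Eu 2) : Eu 3 := fac p • vec p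

lemma sig0_norm (p : Eu 2) : ‖sig0 p‖ = 1 := by
  have h1 : ‖sig0 p‖ ^ 2 = 1 := by
    rw [EuclideanSpace.norm_sq_eq, Fin.sum_univ_three]
    simp only [sig0, vec, PiLp.smul_apply, smul_eq_mul, Real.norm_eq_abs, sq_abs]
    simp
    nlinarith [fac_sq p, Real.sin_sq_add_cos_sq (Real.pi * p 0)]
  have h2 := norm_nonneg (sig0 p)
  nlinarith

/-- The parametrization of the unit sphere. -/
def sig (p : Eu 2) : Metric.sphere (0 : Eu 3) 1 := ⟨sig0 p, by simp [sig0_norm]⟩

instance fact3 : Fact (finrank ℝ (Eu 3) = 2 + 1) := ⟨by simp⟩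

lemma sig0_contDiff : ContDiff ℝ ∞ sig0 := fac_contDiff.smul vec_contDiff

lemma sig_contMDiff : ContMDiff (𝓡 2) (𝓡 2) ∞ sig :=
  ContMDiff.codRestrict_sphere (n := 2) (sig0_contDiff.contMDiff) _

lemma hasFDerivAt_vec (p a : Eu 2) : fderiv ℝ vec p a =
    !₂[-(Real.pi * a 0 * Real.sin (Real.pi * p 0)), Real.pi * a 0 * Real.cos (Real.pi * p 0),
      a 1] := by
  have h0 : HasFDerivAt (fun u : Eu 2 => u 0) (EuclideanSpace.proj 0 : Eu 2 →L[ℝ] ℝ) p :=
    (EuclideanSpace.proj 0 : Eu 2 →L[ℝ] ℝ).hasFDerivAt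
  have h1 : HasFDerivAt (fun u : Eu 2 => u 1) (EuclideanSpace.proj 1 : Eu 2 →L[ℝ] ℝ) p :=
    (EuclideanSpace.proj 1 : Eu 2 →L[ℝ] ℝ).hasFDerivAt
  have hv : HasFDerivAt vec (fderiv ℝ vec p) p :=
    (vec_contDiff.differentiable (by simp) p).hasFDerivAt
  have hvi : ∀ i : Fin 3, HasFDerivAt (fun u => vec u i)
      ((EuclideanSpace.proj i : Eu 3 →L[ℝ] ℝ).comp (fderiv ℝ vec p)) p := fun i =>
    (EuclideanSpace.proj i : Eu 3 →L[ℝ] ℝ).hasFDerivAt.comp p hv
  have e0 := (hvi 0).unique (h0.const_mul Real.pi).cos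
  have e1 := (hvi 1).unique (h0.const_mul Real.pi).sin
  have e2 := (hvi 2).unique h1
  have f0 := congrArg (fun T : Eu 2 →L[ℝ] ℝ => T a) e0
  have f1 := congrArg (fun T : Eu 2 →L[ℝ] ℝ => T a) e1
  have f2 := congrArg (fun T : Eu 2 →L[ℝ] ℝ => T a) e2
  simp at f0 f1 f2
  ext i
  fin_cases i
  · simp [f0]; ring
  · simp [f1]; ring
  · simp [f2]

lemma sig0_immersion (p a : Eu 2) (h : fderiv ℝ sig0 p a = 0) : a = 0 := by
  have hv : HasFDerivAt vec (fderiv ℝ vec p) p :=
    (vec_contDiff.differentiable (by simp) p).hasFDerivAt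
  have hf : HasFDerivAt fac (fderiv ℝ fac p) p :=
    (fac_contDiff.differentiable (by simp) p).hasFDerivAt
  have hs : HasFDerivAt sig0 _ p := hf.smul hv
  rw [hs.fderiv] at h
  have h' : fac p • fderiv ℝ vec p a + (fderiv ℝ fac p a) • vec p = 0 := by simpa using h
  rw [hasFDerivAt_vec] at h'
  have g0 := congrArg (fun v : Eu 3 => v 0) h'
  have g1 := congrArg (fun v : Eu 3 => v 1) h'
  have g2 := congrArg (fun v : Eu 3 => v 2) h'
  simp [vec] at g0 g1 g2
  have hf0 := (fac_pos p).ne'
  have hcs := Real.sin_sq_add_cos_sq (Real.pi * p 0)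
  set c := Real.cos (Real.pi * p 0)
  set s := Real.sin (Real.pi * p 0)
  have hd : fderiv ℝ fac p a = 0 := by
    have : fderiv ℝ fac p a * (s ^ 2 + c ^ 2) = 0 := by
      linear_combination c * g0 + s * g1
    rwa [hcs, mul_one] at this
  rw [hd] at g0 g1 g2
  have ha1 : a 1 = 0 := by
    have : fac p * a 1 = 0 := by linear_combination g2
    exact (mul_eq_zero.mp this).resolve_left hf0
  have ha0 : a 0 = 0 := by
    have : (fac p * Real.pi) * a 0 * (s ^ 2 + c ^ 2) = 0 := by
      linear_combination c * g1 - s * g0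
    rw [hcs, mul_one] at this
    exact (mul_eq_zero.mp this).resolve_left (mul_ne_zero hf0 Real.pi_ne_zero)
  ext i
  fin_cases i
  · simpa using ha0
  · simpa using ha1

lemma sig_immersion (p : Eu 2) : Function.Injective (mfderiv (𝓡 2) (𝓡 2) sig p) := by
  rw [injective_iff_map_eq_zero]
  intro v hv
  have h1 : HasMFDerivAt (𝓡 2) (𝓡 2) sig p (mfderiv (𝓡 2) (𝓡 2) sig p) :=
    (sig_contMDiff.mdifferentiable (by simp) p).hasMFDerivAt
  have h2 : ContMDiff (𝓡 2) 𝓘(ℝ, Eu 3) ∞ ((↑) : Metric.sphere (0 : Eu 3) 1 → Eu 3) :=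
    contMDiff_coe_sphere
  have h3 := (h2.mdifferentiable (by simp) (sig p)).hasMFDerivAt
  have h4 : mfderiv (𝓡 2) 𝓘(ℝ, Eu 3) sig0 p = _ := (h3.comp p h1).mfderiv
  rw [mfderiv_eq_fderiv] at h4
  apply sig0_immersion p
  rw [h4]
  show mfderiv (𝓡 2) 𝓘(ℝ, Eu 3) ((↑) : Metric.sphere (0 : Eu 3) 1 → Eu 3) (sig p)
    (mfderiv (𝓡 2) (𝓡 2) sig p v) = 0
  rw [hv, map_zero]

lemma sig_eq_iff (p q : Eu 2) : sig p = sig q ↔ sig0 p = sig0 q := Subtype.ext_iff

lemma sig_eq_neg_iff (p q : Eu 2) : sig p = -sig q ↔ sig0 p = -sig0 q := by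
  rw [Subtype.ext_iff]; rfl

lemma sig0_coord (p : Eu 2) (ε : ℝ) (q : Eu 2) (hε : ε ^ 2 = 1) (h : sig0 p = ε • sig0 q) :
    Real.cos (Real.pi * p 0) = ε * Real.cos (Real.pi * q 0) ∧
    Real.sin (Real.pi * p 0) = ε * Real.sin (Real.pi * q 0) ∧ p 1 = ε * q 1 := by
  have g0 := congrArg (fun v : Eu 3 => v 0) h
  have g1 := congrArg (fun v : Eu 3 => v 1) h
  have g2 := congrArg (fun v : Eu 3 => v 2) h
  simp [sig0, vec] at g0 g1 g2
  have hp := fac_pos p
  have hq := fac_pos q
  have hcp := Real.sin_sq_add_cos_sq (Real.pi * p 0)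
  have hcq := Real.sin_sq_add_cos_sq (Real.pi * q 0)
  set c := Real.cos (Real.pi * p 0)
  set s := Real.sin (Real.pi * p 0)
  set c' := Real.cos (Real.pi * q 0)
  set s' := Real.sin (Real.pi * q 0)
  have hsq : fac p ^ 2 = fac q ^ 2 := by
    have h1 : (fac p * c) ^ 2 + (fac p * s) ^ 2 = (ε * (fac q * c')) ^ 2 + (ε * (fac q * s')) ^ 2 := by
      rw [g0, g1]
    have h2 : (fac p * c) ^ 2 + (fac p * s) ^ 2 = fac p ^ 2 * (s ^ 2 + c ^ 2) := by ring
    have h3 : (ε * (fac q * c')) ^ 2 + (ε * (fac q * s')) ^ 2 =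
      ε ^ 2 * fac q ^ 2 * (s' ^ 2 + c' ^ 2) := by ring
    rw [h2, h3, hcp, hcq, hε] at h1
    linarith
  have hfac : fac p = fac q := by
    rcases sq_eq_sq_iff_eq_or_eq_neg.mp hsq with h | h
    · exact h
    · linarith
  rw [hfac] at g0 g1 g2
  refine ⟨?_, ?_, ?_⟩
  · exact mul_left_cancel₀ hq.ne' (by linarith)
  · exact mul_left_cancel₀ hq.ne' (by linarith)
  · exact mul_left_cancel₀ hq.ne' (by linarith)

lemma sig_fibres (p q : Eu 2) : (sig p = sig q ∨ sig p = -sig q) ↔ GlideRel p q := by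
  rw [sig_eq_iff, sig_eq_neg_iff]
  constructor
  · rintro (h | h)
    · obtain ⟨h0, h1, h2⟩ := sig0_coord p 1 q (by norm_num) (by rw [one_smul]; exact h)
      have hc : Real.cos (Real.pi * q 0 - Real.pi * p 0) = 1 := by
        rw [Real.cos_sub, h0, h1]
        nlinarith [Real.sin_sq_add_cos_sq (Real.pi * q 0)]
      obtain ⟨n, hn⟩ := (Real.cos_eq_one_iff _).mp hc
      refine ⟨2 * n, ?_, ?_⟩
      · push_cast
        have : Real.pi * (q 0 - p 0) = Real.pi * (2 * n) := by linarith
        have := mul_left_cancel₀ Real.pi_ne_zero this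
        linarith
      · rw [zpow_mul]
        norm_num
        linarith
    · obtain ⟨h0, h1, h2⟩ := sig0_coord p (-1) q (by norm_num) (by rw [neg_one_smul]; exact h)
      have hc : Real.cos (Real.pi * q 0 - Real.pi * p 0 - Real.pi) = 1 := by
        rw [Real.cos_sub_pi, Real.cos_sub, h0, h1]
        nlinarith [Real.sin_sq_add_cos_sq (Real.pi * q 0)]
      obtain ⟨n, hn⟩ := (Real.cos_eq_one_iff _).mp hc
      refine ⟨2 * n + 1, ?_, ?_⟩
      · push_cast
        have : Real.pi * (q 0 - p 0) = Real.pi * (2 * n + 1) := by linarith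
        have := mul_left_cancel₀ Real.pi_ne_zero this
        linarith
      · rw [zpow_add₀ (by norm_num), zpow_mul]
        norm_num
        linarith
  · rintro ⟨k, hk0, hk1⟩
    rcases Int.even_or_odd' k with ⟨m, hm | hm⟩
    · left
      subst hm
      have e : (-1 : ℝ) ^ (2 * m) = 1 := by rw [zpow_mul]; norm_num
      rw [e, one_mul] at hk1
      push_cast at hk0
      have e1 : Real.pi * q 0 = Real.pi * p 0 + m * (2 * Real.pi) := by rw [hk0]; ring
      have e2 : fac q = fac p := by unfold fac; rw [hk1]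
      have e3 : vec q = vec p := by
        unfold vec
        rw [e1, Real.cos_add_int_mul_two_pi, Real.sin_add_int_mul_two_pi, hk1]
      unfold sig0
      rw [e2, e3]
    · right
      subst hm
      have e : (-1 : ℝ) ^ (2 * m + 1) = -1 := by
        rw [zpow_add₀ (by norm_num), zpow_mul]; norm_num
      rw [e, neg_one_mul] at hk1
      push_cast at hk0
      have e1 : Real.pi * q 0 = Real.pi * p 0 + Real.pi + m * (2 * Real.pi) := by rw [hk0]; ring
      have e2 : fac q = fac p := by unfold fac; rw [hk1, neg_sq]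
      have e3 : vec q = -vec p := by
        unfold vec
        rw [e1, Real.cos_add_int_mul_two_pi, Real.sin_add_int_mul_two_pi, hk1, Real.cos_add_pi,
          Real.sin_add_pi]
        ext i
        fin_cases i <;> simp
      unfold sig0
      rw [e2, e3, smul_neg, neg_neg]

/-- `S²` has a totally skew embedding into `ℝ⁷`. -/
lemma sphere_seven : HasTotallySkewEmbedding (𝓡 2) (Metric.sphere (0 : Eu 3) 1) 7 :=
  Pool.Agent.Results.MP_794fdb_gt.OrientableSurfaces.result.2.2

/-- `N(M) ≤ N(M/Γ)` for surfaces `M` lying in some `{t² = F(x, y)} ⊂ ℝ³` and quotients containing a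
Moebius band; in particular `N(S²) ≤ N(ℝP²)`. -/
theorem result {E H M E' H' Q Γ : Type} [NormedAddCommGroup E] [NormedSpace ℝ E]
    [TopologicalSpace H] (I : ModelWithCorners ℝ E H) [TopologicalSpace M] [ChartedSpace H M]
    [NormedAddCommGroup E'] [NormedSpace ℝ E'] [TopologicalSpace H']
    (J : ModelWithCorners ℝ E' H') [TopologicalSpace Q] [ChartedSpace H' Q]
    [Group Γ] [MulAction Γ M] (N : ℕ) :
    (ProjectivePlaneHasTotallySkewEmbedding N → SphereHasTotallySkewEmbedding N) ∧
    (EmbedsInDouble I M → ContainsMoebius I (SameOrbit (M := M) Γ) →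
      QuotientHasTotallySkewEmbedding I (SameOrbit (M := M) Γ) N →
      HasTotallySkewEmbedding I M N) ∧
    (EmbedsInDouble I M → ContainsMoebius J (Eq : Q → Q → Prop) →
      HasTotallySkewEmbedding J Q N → HasTotallySkewEmbedding I M N) := by
  refine ⟨?_, ?_, ?_⟩
  · rintro ⟨φ, hφ, hfib⟩
    have h7 : 7 ≤ N := seven_le hφ ⟨sig_contMDiff, sig_immersion⟩
      (fun p q => (hfib _ _).trans (sig_fibres p q))
    exact mono h7 sphere_seven
  · rintro ⟨ι, hι, F, hF, hS⟩ ⟨j, hj, hfib⟩ ⟨φ, hφ, hφΓ⟩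
    have h7 : 7 ≤ N := seven_le hφ hj (fun p q => (hφΓ _ _).trans (hfib p q))
    exact mono h7 (level hF hι hS)
  · rintro ⟨ι, hι, F, hF, hS⟩ ⟨j, hj, hfib⟩ ⟨φ, hφ⟩
    have h7 : 7 ≤ N := seven_le ⟨⟨hφ.smooth, hφ.immersion⟩, hφ.skew⟩ hj
      (fun p q => hφ.embedding.injective.eq_iff.trans (hfib p q))
    exact mono h7 (level hF hι hS)

end

end Pool.Agent.Results.MP_3c016c_gt.DimensionTwo
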